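import Mathlib

/-! Ramsey multiplicity, Ramsey robustness and Ramsey-minimal graphs. -/

namespace Pool.Agent.H120Z.Rob

open SimpleGraph

variable {V W : Type}

/-- `K` is a copy of `H` in `G`: a subgraph of `G` isomorphic to `H`. -/
def IsCopy (H : SimpleGraph W) {G : SimpleGraph V} (K : G.Subgraph) : Prop :=
  Nonempty (H ≃g K.coe)

/-- All edges of the subgraph `K` get one colour under the edge colouring `c` of `G`. -/
def IsMono {r : ℕ} {G : SimpleGraph V} (c : G.edgeSet → Fin r) (K : G.Subgraph) : Prop :=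
  ∃ i : Fin r, ∀ e : G.edgeSet, e.1 ∈ K.edgeSet → c e = i

/-- `G →_r H`: every `r`-colouring of the edges of `G` has a monochromatic copy of `H`. -/
def Arrows (r : ℕ) (H : SimpleGraph W) (G : SimpleGraph V) : Prop :=
  ∀ c : G.edgeSet → Fin r, ∃ K : G.Subgraph, IsCopy H K ∧ IsMono c K

/-- The number of monochromatic copies of `H` in `G` under the colouring `c`. -/
noncomputable def monoCount {r : ℕ} (H : SimpleGraph W) {G : SimpleGraph V}
    (c : G.edgeSet → Fin r) : ℕ :=
  Set.ncard {K : G.Subgraph | IsCopy H K ∧ IsMono c K}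

/-- The `r`-multiplicity `M_r(H, G)`: the minimum over all `r`-colourings of the edges of `G` of
the number of monochromatic copies of `H`. -/
noncomputable def mult (r : ℕ) (H : SimpleGraph W) (G : SimpleGraph V) : ℕ :=
  sInf (Set.range fun c : G.edgeSet → Fin r => monoCount H c)

/-- The Ramsey `r`-robustness `M_r(H, G) / M_1(H, G)`. -/
noncomputable def rob (r : ℕ) (H : SimpleGraph W) (G : SimpleGraph V) : ℝ :=
  (mult r H G : ℝ) / (mult 1 H G : ℝ)

/-- `G` is `r`-Ramsey-minimal for `H`: `G →_r H` and no proper subgraph of `G` (fewer vertices or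
fewer edges) arrows `H`. -/
def IsMinimal (r : ℕ) (H : SimpleGraph W) (G : SimpleGraph V) : Prop :=
  Arrows r H G ∧ ∀ G' : G.Subgraph, G' ≠ ⊤ → ¬ Arrows r H G'.coe

/-- Finite simple graphs: a number `n` of vertices and a graph on `Fin n`. -/
def FinGraph : Type := Σ n : ℕ, SimpleGraph (Fin n)

/-- Isomorphism of finite graphs as an equivalence relation. -/
def isoSetoid : Setoid FinGraph where
  r a b := Nonempty (a.2 ≃g b.2)
  iseqv := ⟨fun _ => ⟨Iso.refl⟩, fun ⟨f⟩ => ⟨f.symm⟩, fun ⟨f⟩ ⟨g⟩ => ⟨f.trans g⟩⟩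

/-- `H` is `r`-Ramsey-infinite: the `r`-Ramsey-minimal graphs for `H` fall into infinitely many
isomorphism classes. -/
def RamseyInfinite (r : ℕ) (H : SimpleGraph W) : Prop :=
  Set.Infinite (Quotient.mk isoSetoid '' {G : FinGraph | IsMinimal r H G.2})

end Pool.Agent.H120Z.Rob
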