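import Pool.Agent.H120Z.Rob.Defs

namespace Pool.Agent.H120Z.Rob

open SimpleGraph

variable {V W : Type}

/-- restriction of a subgraph `K ≤ G'` to `G'.coe` is isomorphic to `K`. -/
noncomputable def restrictIso {G : SimpleGraph V} {G' K : G.Subgraph} (h : K ≤ G') :
    K.coe ≃g (Subgraph.restrict (G' := G') K).coe where
  toFun x := ⟨⟨x.1, h.1 x.2⟩, x.2⟩
  invFun y := ⟨y.1.1, y.2⟩
  left_inv _ := rfl
  right_inv _ := rfl
  map_rel_iff' := by
    intro a b
    simp only [Equiv.coe_fn_mk, Subgraph.coe_adj, Subgraph.restrict_adj]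
    exact ⟨fun h' => h'.2, fun h' => ⟨h.2 h', h'⟩⟩

lemma exists_colouring {r : ℕ} (hr : 0 < r) (H : SimpleGraph W) {G : SimpleGraph V}
    (G' : G.Subgraph) (h : ¬ Arrows r H G'.coe) :
    ∃ c : G.edgeSet → Fin r, ∀ K : G.Subgraph, IsCopy H K → IsMono c K → ¬ K ≤ G' := by
  classical
  unfold Arrows at h
  push Not at h
  obtain ⟨c', hc'⟩ := h
  refine ⟨fun e => if h : ∃ f : G'.coe.edgeSet, Sym2.map Subtype.val f.1 = e.1 then c' h.choose
    else ⟨0, hr⟩, ?_⟩
  rintro K ⟨φ⟩ ⟨i, hi⟩ hle
  refine hc' (Subgraph.restrict (G' := G') K) ⟨φ.trans (restrictIso hle)⟩ ⟨i, ?_⟩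
  rintro ⟨f, hf⟩ hfK
  induction f using Sym2.ind with
  | _ a b =>
    have hab : G'.Adj a b := hf
    have hK : K.Adj a b := by
      have := (Subgraph.mem_edgeSet).1 hfK
      rw [Subgraph.restrict_adj] at this
      exact this.2
    have h1 := hi ⟨s(a.1, b.1), G'.adj_sub hab⟩ (Subgraph.mem_edgeSet.2 hK)
    have hex : ∃ f : G'.coe.edgeSet, Sym2.map Subtype.val f.1 = s(a.1, b.1) :=
      ⟨⟨s(a, b), hf⟩, rfl⟩
    simp only [dif_pos hex] at h1
    have h2 : hex.choose = ⟨s(a, b), hf⟩ := by
      apply Subtype.ext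
      apply Sym2.map.injective Subtype.val_injective
      rw [hex.choose_spec]; rfl
    rw [h2] at h1
    exact h1

lemma card_verts_of_copy [Finite W] {H : SimpleGraph W} {G : SimpleGraph V} {K : G.Subgraph}
    (h : IsCopy H K) : Nat.card K.verts = Nat.card W := by
  obtain ⟨φ⟩ := h
  exact (Nat.card_congr φ.toEquiv).symm

lemma ncard_edges_of_copy {H : SimpleGraph W} {G : SimpleGraph V} {K : G.Subgraph}
    (h : IsCopy H K) : K.edgeSet.ncard = H.edgeSet.ncard := by
  obtain ⟨φ⟩ := h
  have h1 : H.edgeSet.ncard = K.coe.edgeSet.ncard := by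
    rw [← Nat.card_coe_set_eq, ← Nat.card_coe_set_eq]
    exact Nat.card_congr φ.mapEdgeSet
  rw [h1, ← Subgraph.image_coe_edgeSet_coe,
    Set.ncard_image_of_injective _ (Sym2.map.injective Subtype.val_injective)]

/-- a minimal graph with more vertices than `H` has no isolated vertex -/
lemma no_isolated {r : ℕ} (hr : 0 < r) [Finite V] [Finite W] {H : SimpleGraph W}
    {G : SimpleGraph V} (hG : IsMinimal r H G) (hV : Nat.card W < Nat.card V) (v : V) :
    ∃ w, G.Adj v w := by
  classical
  by_contra hv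
  push Not at hv
  have hne : (⊤ : G.Subgraph).deleteVerts {v} ≠ ⊤ := by
    intro h
    have : v ∈ ((⊤ : G.Subgraph).deleteVerts {v}).verts := by rw [h]; trivial
    simp at this
  obtain ⟨c, hc⟩ := exists_colouring hr H _ (hG.2 _ hne)
  obtain ⟨K, hK, hm⟩ := hG.1 c
  have hle : ∀ L : G.Subgraph, v ∉ L.verts → L ≤ (⊤ : G.Subgraph).deleteVerts {v} := by
    intro L hL
    refine ⟨fun x hx => ?_, fun a b hab => ?_⟩
    · simp only [Subgraph.deleteVerts_verts, Subgraph.verts_top, Set.mem_sdiff, Set.mem_univ,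
        Set.mem_singleton_iff, true_and]
      rintro rfl; exact hL hx
    · rw [Subgraph.deleteVerts_adj]
      refine ⟨trivial, ?_, trivial, ?_, L.adj_sub hab⟩
      · rintro rfl; exact hL (L.edge_vert hab)
      · rintro rfl; exact hL (L.edge_vert hab.symm)
  by_cases hvK : v ∈ K.verts
  · have hex : ∃ u, u ∉ K.verts := by
      by_contra hu
      push Not at hu
      have h1 : K.verts = Set.univ := Set.eq_univ_of_forall hu
      have h2 := card_verts_of_copy hK
      rw [h1, Nat.card_congr (Equiv.Set.univ V)] at h2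
      omega
    obtain ⟨u, hu⟩ := hex
    have huv : u ≠ v := by rintro rfl; exact hu hvK
    have hfix : ∀ a b, K.Adj a b → Equiv.swap u v a = a := by
      intro a b hab
      apply Equiv.swap_apply_of_ne_of_ne
      · rintro rfl; exact hu (K.edge_vert hab)
      · rintro rfl; exact hv _ (K.adj_sub hab)
    let L : G.Subgraph :=
      { verts := Equiv.swap u v '' K.verts
        Adj := K.Adj
        adj_sub := K.adj_sub
        edge_vert := fun {a b} hab => ⟨a, K.edge_vert hab, hfix a b hab⟩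
        symm := K.symm }
    have hadj : ∀ a b, K.Adj (Equiv.swap u v a) (Equiv.swap u v b) ↔ K.Adj a b := by
      intro a b
      constructor
      · intro h
        have h1 := hfix _ _ h
        have h2 := hfix _ _ h.symm
        rw [Equiv.swap_apply_self] at h1 h2
        rw [h1, h2]; exact h
      · intro h
        rw [hfix _ _ h, hfix _ _ h.symm]; exact h
    have hL : IsCopy H L := by
      obtain ⟨φ⟩ := hK
      refine ⟨φ.trans ⟨Equiv.Set.image (Equiv.swap u v) K.verts (Equiv.swap u v).injective, ?_⟩⟩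
      intro a b
      exact hadj a.1 b.1
    refine hc L hL ?_ (hle L ?_)
    · obtain ⟨i, hi⟩ := hm
      exact ⟨i, fun e he => hi e he⟩
    · rintro ⟨x, hx, hxv⟩
      have : x = u := by
        have := congrArg (Equiv.swap u v) hxv
        rwa [Equiv.swap_apply_self, Equiv.swap_apply_right] at this
      exact hu (this ▸ hx)
  · exact hc K hK hm (hle K hvK)

lemma card_le_of_no_isolated [Finite V] {G : SimpleGraph V} (h : ∀ v, ∃ w, G.Adj v w) :
    Nat.card V ≤ 2 * G.edgeSet.ncard := by
  classical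
  let _ := Fintype.ofFinite V
  have h1 := G.sum_degrees_eq_twice_card_edges
  have h2 : Fintype.card V ≤ ∑ v, G.degree v := by
    rw [Fintype.card, Finset.card_eq_sum_ones]
    exact Finset.sum_le_sum fun v _ => (G.degree_pos_iff_exists_adj v).2 (h v)
  rw [Nat.card_eq_fintype_card, ← SimpleGraph.coe_edgeFinset, Set.ncard_coe_finset]
  omega

lemma mult_one (H : SimpleGraph W) (G : SimpleGraph V) :
    mult 1 H G = Set.ncard {K : G.Subgraph | IsCopy H K} := by
  unfold mult
  have : (Set.range fun c : G.edgeSet → Fin 1 => monoCount H c) =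
      {Set.ncard {K : G.Subgraph | IsCopy H K}} := by
    have h0 : ∀ c : G.edgeSet → Fin 1, monoCount H c = Set.ncard {K : G.Subgraph | IsCopy H K} := by
      intro c
      unfold monoCount
      congr 1
      ext K
      exact ⟨fun h => h.1, fun h => ⟨h, 0, fun e _ => Subsingleton.elim _ _⟩⟩
    ext x
    simp only [Set.mem_range, h0, Set.mem_singleton_iff]
    exact ⟨fun ⟨_, h⟩ => h.symm, fun h => ⟨fun _ => 0, h.symm⟩⟩
  rw [this, csInf_singleton]

lemma mult_le_edge {r : ℕ} (hr : 0 < r) [Finite V] {H : SimpleGraph W}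
    {G : SimpleGraph V} (hG : IsMinimal r H G) (e : Sym2 V) (he : e ∈ G.edgeSet) :
    mult r H G ≤ Set.ncard {K : G.Subgraph | IsCopy H K ∧ e ∈ K.edgeSet} := by
  classical
  have hne : (⊤ : G.Subgraph).deleteEdges {e} ≠ ⊤ := by
    intro h
    induction e using Sym2.ind with
    | _ a b =>
      have : ((⊤ : G.Subgraph).deleteEdges {s(a, b)}).Adj a b := by rw [h]; exact he
      simp at this
  obtain ⟨c, hc⟩ := exists_colouring hr H _ (hG.2 _ hne)
  refine (Nat.sInf_le (s := Set.range fun c : G.edgeSet → Fin r => monoCount H c)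
    ⟨c, rfl⟩).trans ?_
  unfold monoCount
  refine Set.ncard_le_ncard ?_ (Set.toFinite _)
  rintro K ⟨hK, hm⟩
  refine ⟨hK, ?_⟩
  by_contra heK
  refine hc K hK hm ⟨fun _ _ => trivial, fun a b hab => ?_⟩
  rw [Subgraph.deleteEdges_adj]
  refine ⟨K.adj_sub hab, ?_⟩
  rintro rfl
  exact heK (Subgraph.mem_edgeSet.2 hab)

lemma edges_mul_mult_le {r : ℕ} (hr : 0 < r) [Finite V] {H : SimpleGraph W}
    {G : SimpleGraph V} (hG : IsMinimal r H G) :
    G.edgeSet.ncard * mult r H G ≤ H.edgeSet.ncard * mult 1 H G := by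
  classical
  let _ := Fintype.ofFinite V
  let _ : Fintype G.Subgraph := Fintype.ofFinite _
  rw [mult_one]
  set C : Finset G.Subgraph := Finset.univ.filter (fun K => IsCopy H K) with hC
  have hC' : Set.ncard {K : G.Subgraph | IsCopy H K} = C.card := by
    rw [← Set.ncard_coe_finset]; congr 1; ext K; simp [hC]
  have h1 : G.edgeSet.ncard * mult r H G ≤
      ∑ e ∈ G.edgeFinset, (C.filter (fun K => e ∈ K.edgeSet)).card := by
    rw [← SimpleGraph.coe_edgeFinset, Set.ncard_coe_finset, ← smul_eq_mul]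
    apply Finset.card_nsmul_le_sum
    intro e he
    refine (mult_le_edge hr hG e (SimpleGraph.mem_edgeFinset.1 he)).trans (le_of_eq ?_)
    rw [← Set.ncard_coe_finset]; congr 1; ext K; simp [hC]
  have h2 : ∑ e ∈ G.edgeFinset, (C.filter (fun K => e ∈ K.edgeSet)).card =
      ∑ K ∈ C, (G.edgeFinset.filter (fun e => e ∈ K.edgeSet)).card := by
    simp only [Finset.card_filter]
    exact Finset.sum_comm
  have h3 : ∀ K ∈ C, (G.edgeFinset.filter (fun e => e ∈ K.edgeSet)).card = H.edgeSet.ncard := by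
    intro K hK
    rw [← ncard_edges_of_copy (Finset.mem_filter.1 hK).2, ← Set.ncard_coe_finset]
    congr 1
    ext e
    simp only [Finset.coe_filter, mem_edgeFinset, Set.mem_ofPred_eq]
    exact ⟨fun h => h.2, fun h => ⟨K.edgeSet_subset h, h⟩⟩
  rw [h2, Finset.sum_congr rfl h3, Finset.sum_const, smul_eq_mul] at h1
  rw [hC', mul_comm H.edgeSet.ncard]
  exact h1

lemma rob_le {r : ℕ} (hr : 0 < r) [Finite V] {H : SimpleGraph W}
    {G : SimpleGraph V} (hG : IsMinimal r H G) (he : 0 < G.edgeSet.ncard) :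
    rob r H G ≤ (H.edgeSet.ncard : ℝ) / G.edgeSet.ncard := by
  unfold rob
  have h := edges_mul_mult_le hr hG
  rcases Nat.eq_zero_or_pos (mult 1 H G) with h0 | h0
  · rw [h0]; simp only [Nat.cast_zero, div_zero]; positivity
  · rw [div_le_div_iff₀ (by exact_mod_cast h0) (by exact_mod_cast he)]
    rw [mul_comm]
    exact_mod_cast h

lemma exists_many_edges {r : ℕ} (hr : 0 < r) [Finite W] {H : SimpleGraph W}
    (h : RamseyInfinite r H) (B : ℕ) :
    ∃ G : FinGraph, IsMinimal r H G.2 ∧ B < G.2.edgeSet.ncard := by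
  classical
  by_contra hB
  push Not at hB
  apply h
  apply Set.Finite.image
  have hfin : {G : FinGraph | G.1 ≤ max (2 * B) (Nat.card W)}.Finite := by
    have h0 : (⋃ n ∈ Set.Iic (max (2 * B) (Nat.card W)),
          Set.range (fun g : SimpleGraph (Fin n) => (show FinGraph from ⟨n, g⟩))).Finite :=
      (Set.finite_Iic _).biUnion fun n _ => Set.finite_range _
    refine h0.subset ?_
    intro G hG
    exact Set.mem_biUnion (x := G.1) hG ⟨G.2, rfl⟩
  refine hfin.subset ?_
  rintro ⟨n, g⟩ hg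
  have hg' : IsMinimal r H g := hg
  have h1 := hB ⟨n, g⟩ hg'
  change n ≤ _
  by_cases hn : Nat.card W < Nat.card (Fin n)
  · have := card_le_of_no_isolated (no_isolated hr hg' hn)
    rw [Nat.card_eq_fintype_card, Fintype.card_fin] at this
    change g.edgeSet.ncard ≤ B at h1
    omega
  · rw [Nat.card_eq_fintype_card (α := Fin n), Fintype.card_fin] at hn
    omega

theorem main {r : ℕ} (hr : 0 < r) [Finite W] (H : SimpleGraph W) (h : RamseyInfinite r H) :
    IsGLB {x : ℝ | ∃ G : FinGraph, IsMinimal r H G.2 ∧ x = rob r H G.2} 0 := by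
  constructor
  · rintro x ⟨G, -, rfl⟩
    unfold rob; positivity
  · intro b hb
    by_contra hb0
    push Not at hb0
    obtain ⟨B, hB⟩ := exists_nat_gt ((H.edgeSet.ncard : ℝ) / b)
    obtain ⟨G, hG, hGB⟩ := exists_many_edges hr h B
    have h1 : b ≤ rob r H G.2 := hb ⟨G, hG, rfl⟩
    have h2 := rob_le hr hG (by omega)
    have h3 : (B : ℝ) < G.2.edgeSet.ncard := by exact_mod_cast hGB
    have h4 : (0 : ℝ) < G.2.edgeSet.ncard := lt_of_le_of_lt (Nat.cast_nonneg _) h3
    rw [div_lt_iff₀ hb0] at hB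
    have h5 := h1.trans h2
    rw [le_div_iff₀ h4] at h5
    nlinarith

end Pool.Agent.H120Z.Rob
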